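import Pool.Graph.R_seed8.Y693.EG.Clp
import Pool.Graph.R_seed8.Y46.EG.Germ
import Mathlib.Analysis.Complex.BranchLogRoot
import Mathlib.Analysis.Convex.Contractible
import Mathlib.MeasureTheory.Function.Jacobian

/-!
# Few vectors stay long in the region of small curvature: preparations

The Laplace operator under holomorphic maps, lifts of paths to the strip.
-/

set_option autoImplicit false
set_option linter.unusedSectionVars false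

open Set Filter Topology MeasureTheory
open scoped ContDiff Real

noncomputable section

namespace Pool.Agent.H400.EV.ClPA

open Pool.Agent.Y262.EG
open Pool.Agent.Y46.EG (lin_eq comp_deriv re_im_deriv dpx)
open Pool.Agent.Y693.EG (stp_open stp_mono closure_stp tr_re tr_im tr_stp pr_int mod_two_pi
  germ_angle Bs bs_meas Rs rs_meas rs_fin bs_vol stay)

section lap

variable {Ω : Set ℂ} {φ : ℂ → ℝ} {Γ ℓ : ℂ → ℂ} {S : Set ℂ} {ψ : ℂ → ℝ}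

/-- the first derivatives of the pull back -/
lemma first (hO : IsOpen Ω) (hφ : ContDiffOn ℝ ∞ φ Ω) (hS : IsOpen S)
    (hΓ : DifferentiableOn ℂ Γ S) (hm : ∀ z ∈ S, Γ z ∈ Ω) (hl : DifferentiableOn ℂ ℓ S)
    (hψ : ∀ z ∈ S, φ (Γ z) + (ℓ z).re = ψ z) {ζ : ℂ} (hζ : ζ ∈ S) :
    px ψ ζ = (deriv Γ ζ).re * px φ (Γ ζ) + (deriv Γ ζ).im * py φ (Γ ζ) + (deriv ℓ ζ).re ∧
      py ψ ζ = -(deriv Γ ζ).im * px φ (Γ ζ) + (deriv Γ ζ).re * py φ (Γ ζ) - (deriv ℓ ζ).im := by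
  have hg1 : HasDerivAt Γ (deriv Γ ζ) ζ := (hΓ.differentiableAt (hS.mem_nhds hζ)).hasDerivAt
  have hl1 : HasDerivAt ℓ (deriv ℓ ζ) ζ := (hl.differentiableAt (hS.mem_nhds hζ)).hasDerivAt
  have hw := hm ζ hζ
  have hc := comp_deriv (dpx hO hφ hw).1 hg1
  obtain ⟨⟨h3, -⟩, ⟨h4, h5⟩, -⟩ := re_im_deriv hl1
  have hev : ψ =ᶠ[𝓝 ζ] fun ξ => φ (Γ ξ) + (ℓ ξ).re := by
    filter_upwards [hS.mem_nhds hζ] with ξ hξ
    exact (hψ ξ hξ).symm
  have hd1 : DifferentiableAt ℝ (fun ξ => φ (Γ ξ)) ζ :=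
    (dpx hO hφ hw).1.comp ζ (hg1.differentiableAt.restrictScalars ℝ)
  have hd2 : DifferentiableAt ℝ (fun ξ => (ℓ ξ).re) ζ := h3.differentiableAt
  have hf : fderiv ℝ ψ ζ = fderiv ℝ (fun ξ => φ (Γ ξ)) ζ + fderiv ℝ (fun ξ => (ℓ ξ).re) ζ := by
    rw [hev.fderiv_eq]
    rw [fderiv_fun_add hd1 hd2]
  have hx : px ψ ζ = px (fun ξ => φ (Γ ξ)) ζ + px (fun ξ => (ℓ ξ).re) ζ := by
    unfold px; rw [hf]; rfl
  have hy : py ψ ζ = py (fun ξ => φ (Γ ξ)) ζ + py (fun ξ => (ℓ ξ).re) ζ := by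
    unfold py; rw [hf]; rfl
  refine ⟨?_, ?_⟩
  · rw [hx, hc.1, h4]
  · rw [hy, hc.2, h5]; ring

/-- the Laplace operator of the pull back -/
lemma lap_comp (hO : IsOpen Ω) (hφ : ContDiffOn ℝ ∞ φ Ω) (hS : IsOpen S)
    (hΓ : DifferentiableOn ℂ Γ S) (hm : ∀ z ∈ S, Γ z ∈ Ω) (hl : DifferentiableOn ℂ ℓ S)
    (hψ : ∀ z ∈ S, φ (Γ z) + (ℓ z).re = ψ z) {ζ : ℂ} (hζ : ζ ∈ S) :
    px (px ψ) ζ + py (py ψ) ζ =
      ((deriv Γ ζ).re ^ 2 + (deriv Γ ζ).im ^ 2) * (px (px φ) (Γ ζ) + py (py φ) (Γ ζ)) := by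
  have hg1 : HasDerivAt Γ (deriv Γ ζ) ζ := (hΓ.differentiableAt (hS.mem_nhds hζ)).hasDerivAt
  have hg2 : HasDerivAt (deriv Γ) (deriv (deriv Γ) ζ) ζ :=
    ((hΓ.deriv hS).differentiableAt (hS.mem_nhds hζ)).hasDerivAt
  have hG1 : HasDerivAt (deriv ℓ) (deriv (deriv ℓ) ζ) ζ :=
    ((hl.deriv hS).differentiableAt (hS.mem_nhds hζ)).hasDerivAt
  obtain ⟨-, hdx, hdy⟩ := dpx hO hφ (hm ζ hζ)
  have hcx := comp_deriv hdx hg1
  have hcy := comp_deriv hdy hg1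
  obtain ⟨⟨hra, hia⟩, ⟨ha1, ha2⟩, ⟨hb1, hb2⟩⟩ := re_im_deriv hg2
  obtain ⟨⟨hrG, hiG⟩, ⟨hG1', hG2'⟩, ⟨hG3', hG4'⟩⟩ := re_im_deriv hG1
  have hevx : px ψ =ᶠ[𝓝 ζ] fun ξ => (deriv Γ ξ).re * px φ (Γ ξ) + (deriv Γ ξ).im * py φ (Γ ξ) +
        (deriv ℓ ξ).re := by
    filter_upwards [hS.mem_nhds hζ] with ξ hξ
    exact (first hO hφ hS hΓ hm hl hψ hξ).1
  have hevy : py ψ =ᶠ[𝓝 ζ] fun ξ => -(deriv Γ ξ).im * px φ (Γ ξ) + (deriv Γ ξ).re * py φ (Γ ξ) -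
        (deriv ℓ ξ).im := by
    filter_upwards [hS.mem_nhds hζ] with ξ hξ
    exact (first hO hφ hS hΓ hm hl hψ hξ).2
  have hA : DifferentiableAt ℝ (fun ξ => px φ (Γ ξ)) ζ :=
    hdx.comp ζ (hg1.differentiableAt.restrictScalars ℝ)
  have hB : DifferentiableAt ℝ (fun ξ => py φ (Γ ξ)) ζ :=
    hdy.comp ζ (hg1.differentiableAt.restrictScalars ℝ)
  have h1 : px (px ψ) ζ = ((deriv Γ ζ).re * px (fun ξ => px φ (Γ ξ)) ζ +
      px φ (Γ ζ) * px (fun ξ => (deriv Γ ξ).re) ζ) +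
      ((deriv Γ ζ).im * px (fun ξ => py φ (Γ ξ)) ζ +
      py φ (Γ ζ) * px (fun ξ => (deriv Γ ξ).im) ζ) +
      px (fun ξ => (deriv ℓ ξ).re) ζ := by
    have hf : HasFDerivAt (fun ξ => (deriv Γ ξ).re * px φ (Γ ξ) + (deriv Γ ξ).im * py φ (Γ ξ) +
        (deriv ℓ ξ).re) _ ζ :=
      ((hra.differentiableAt.hasFDerivAt.mul hA.hasFDerivAt).add
        (hia.differentiableAt.hasFDerivAt.mul hB.hasFDerivAt)).add
        hrG.differentiableAt.hasFDerivAt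
    unfold px at hf ⊢
    unfold px at hevx
    rw [hevx.fderiv_eq, hf.fderiv]
    simp
  have h2 : py (py ψ) ζ = (-(deriv Γ ζ).im * py (fun ξ => px φ (Γ ξ)) ζ -
      px φ (Γ ζ) * py (fun ξ => (deriv Γ ξ).im) ζ) +
      ((deriv Γ ζ).re * py (fun ξ => py φ (Γ ξ)) ζ +
      py φ (Γ ζ) * py (fun ξ => (deriv Γ ξ).re) ζ) -
      py (fun ξ => (deriv ℓ ξ).im) ζ := by
    have hf : HasFDerivAt (fun ξ => -(deriv Γ ξ).im * px φ (Γ ξ) + (deriv Γ ξ).re * py φ (Γ ξ) -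
        (deriv ℓ ξ).im) _ ζ :=
      ((hia.differentiableAt.hasFDerivAt.neg.mul hA.hasFDerivAt).add
        (hra.differentiableAt.hasFDerivAt.mul hB.hasFDerivAt)).sub
        hiG.differentiableAt.hasFDerivAt
    unfold py at hf ⊢
    unfold py at hevy
    rw [hevy.fderiv_eq, hf.fderiv]
    simp
    ring
  rw [h1, h2, hcx.1, hcx.2, hcy.1, hcy.2, ha1, ha2, hb1, hb2, hG1', hG4']
  ring

end lap

section rot

/-- the derivatives of a function of the real part -/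
lemma rot1 {h : ℝ → ℝ} {h' : ℝ} {z : ℂ} (hh : HasDerivAt h h' z.re) :
    px (fun z => h z.re) z = h' ∧ py (fun z => h z.re) z = 0 := by
  have h1 : HasFDerivAt (fun z : ℂ => h z.re) (h' • Complex.reCLM) z :=
    hh.comp_hasFDerivAt z Complex.reCLM.hasFDerivAt
  refine ⟨?_, ?_⟩
  · unfold px; rw [h1.fderiv]; simp
  · unfold py; rw [h1.fderiv]; simp

/-- convexity of the function `g` -/
lemma conv_g {Ω : Set ℂ} {φ : ℂ → ℝ} {Γ ℓ : ℂ → ℂ} {L δ' : ℝ} {g : ℝ → ℝ} (hO : IsOpen Ω)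
    (hφ : ContDiffOn ℝ ∞ φ Ω) (hΓ : DifferentiableOn ℂ Γ (Stp L δ'))
    (hm : ∀ z ∈ Stp L δ', Γ z ∈ Ω) (hl : DifferentiableOn ℂ ℓ (Stp L δ'))
    (hψ : ∀ z ∈ Stp L δ', φ (Γ z) + (ℓ z).re = g z.re)
    (hg : ContDiffOn ℝ ∞ g (Ioo (-δ') (L + δ'))) (hc : ∀ z ∈ Ω, curv φ z ≤ 0) :
    ∀ x ∈ Ioo (-δ') (L + δ'), 0 ≤ deriv (deriv g) x := by
  intro x hx
  have hx' : (x : ℂ) ∈ Stp L δ' := hx
  have hS := stp_open L δ'
  have h1 := lap_comp (ψ := fun z => g z.re) hO hφ hS hΓ hm hl hψ hx'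
  have hIo : IsOpen (Ioo (-δ') (L + δ')) := isOpen_Ioo
  have hd1 : ∀ y ∈ Ioo (-δ') (L + δ'), HasDerivAt g (deriv g y) y := fun y hy =>
    ((hg.contDiffAt (hIo.mem_nhds hy)).differentiableAt (by simp)).hasDerivAt
  have hd2 : HasDerivAt (deriv g) (deriv (deriv g) x) x := by
    have h2 : ContDiffOn ℝ 1 (deriv g) (Ioo (-δ') (L + δ')) := by
      have h3 : ContDiffOn ℝ 2 g (Ioo (-δ') (L + δ')) := hg.of_le (by
        show ((2 : ℕ∞) : WithTop ℕ∞) ≤ ((⊤ : ℕ∞) : WithTop ℕ∞)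
        exact WithTop.coe_le_coe.2 le_top)
      exact h3.deriv_of_isOpen hIo (by norm_num)
    exact ((h2.contDiffAt (hIo.mem_nhds hx)).differentiableAt (by norm_num)).hasDerivAt
  have hevx : px (fun z => g z.re) =ᶠ[𝓝 (x : ℂ)] fun z => deriv g z.re := by
    filter_upwards [hS.mem_nhds hx'] with z hz
    exact (rot1 (hd1 z.re hz)).1
  have hevy : py (fun z => g z.re) =ᶠ[𝓝 (x : ℂ)] fun _ => 0 := by
    filter_upwards [hS.mem_nhds hx'] with z hz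
    exact (rot1 (hd1 z.re hz)).2
  have h3 : px (px (fun z => g z.re)) (x : ℂ) = deriv (deriv g) x := by
    have h4 : px (px (fun z => g z.re)) (x : ℂ) = px (fun z => deriv g z.re) (x : ℂ) := by
      unfold px at hevx ⊢
      rw [hevx.fderiv_eq]
    rw [h4]
    exact (rot1 (z := (x : ℂ)) hd2).1
  have h5 : py (py (fun z => g z.re)) (x : ℂ) = 0 := by
    unfold py at hevy ⊢
    rw [hevy.fderiv_eq]
    simp
  rw [h3, h5, add_zero] at h1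
  rw [h1]
  have h6 := hc _ (hm _ hx')
  have h7 : 0 ≤ px (px φ) (Γ x) + py (py φ) (Γ x) := by
    unfold curv at h6
    have h8 := Real.exp_pos (-2 * φ (Γ x))
    by_contra h9
    push Not at h9
    nlinarith [mul_neg_of_pos_of_neg h8 h9]
  positivity

end rot

section lift

variable {M : Type} [TopologicalSpace M]

/-- `pr` is open on `Ω` -/
lemma pr_nhds {Ω : Set ℂ} {pr : ℂ → M} (hO : IsOpen Ω)
    (hop : ∀ O : Set ℂ, IsOpen O → O ⊆ Ω → IsOpen (pr '' O)) {w : ℂ} (hw : w ∈ Ω) :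
    𝓝 (pr w) ≤ map pr (𝓝 w) := by
  intro V hV
  rw [mem_map] at hV
  obtain ⟨O, hO1, hO2, hO3⟩ := mem_nhds_iff.1 (inter_mem hV (hO.mem_nhds hw))
  refine mem_nhds_iff.2 ⟨pr '' O, ?_, hop O hO2 fun z hz => (hO1 hz).2, mem_image_of_mem _ hO3⟩
  rintro _ ⟨z, hz, rfl⟩
  exact (hO1 hz).1

/-- the chart of the collar is open -/
lemma F_nhds {Ω : Set ℂ} {pr : ℂ → M} {Γ : ℂ → ℂ} {S : Set ℂ} (hO : IsOpen Ω)
    (hop : ∀ O : Set ℂ, IsOpen O → O ⊆ Ω → IsOpen (pr '' O)) (hS : IsOpen S)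
    (hΓ : DifferentiableOn ℂ Γ S) (hm : ∀ z ∈ S, Γ z ∈ Ω) (hd : ∀ z ∈ S, deriv Γ z ≠ 0) {z : ℂ}
    (hz : z ∈ S) : 𝓝 (pr (Γ z)) ≤ map (fun z => pr (Γ z)) (𝓝 z) := by
  have h1 : HasStrictDerivAt Γ (deriv Γ z) z := by
    have h2 : ContDiffAt ℂ 1 Γ z := (hΓ.contDiffOn hS).contDiffAt (hS.mem_nhds hz)
    exact h2.hasStrictDerivAt (by norm_num)
  have h3 : map Γ (𝓝 z) = 𝓝 (Γ z) := h1.map_nhds_eq (hd z hz)
  have h4 : map (fun z => pr (Γ z)) (𝓝 z) = map pr (map Γ (𝓝 z)) := rfl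
  rw [h4, h3]
  exact pr_nhds hO hop (hm z hz)

/-- uniqueness of lifts through `pr` -/
lemma lift_unique {Ω : Set ℂ} {pr : ℂ → M}
    (hinj : ∀ z ∈ Ω, ∃ r : ℝ, 0 < r ∧ Metric.ball z r ⊆ Ω ∧ InjOn pr (Metric.ball z r))
    {J : Set ℝ} (hJ : IsOpen J) (hJc : IsPreconnected J) {a b : ℝ → ℂ} (ha : ContinuousOn a J)
    (hb : ContinuousOn b J) (haΩ : ∀ t ∈ J, a t ∈ Ω)
    (hp : ∀ t ∈ J, pr (a t) = pr (b t)) {t0 : ℝ} (ht0 : t0 ∈ J) (h0 : a t0 = b t0) :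
    ∀ t ∈ J, a t = b t := by
  have hca : ∀ t ∈ J, ContinuousAt a t := fun t ht => ha.continuousAt (hJ.mem_nhds ht)
  have hcb : ∀ t ∈ J, ContinuousAt b t := fun t ht => hb.continuousAt (hJ.mem_nhds ht)
  have hu : IsOpen {t | t ∈ J ∧ a t = b t} := by
    rw [isOpen_iff_mem_nhds]
    rintro t ⟨ht, hab⟩
    obtain ⟨r, hr, -, hri⟩ := hinj (a t) (haΩ t ht)
    have h1 : ∀ᶠ s in 𝓝 t, a s ∈ Metric.ball (a t) r :=
      (hca t ht).eventually (Metric.ball_mem_nhds _ hr)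
    have h2 : ∀ᶠ s in 𝓝 t, b s ∈ Metric.ball (a t) r := by
      refine (hcb t ht).eventually ?_
      rw [← hab]
      exact Metric.ball_mem_nhds _ hr
    filter_upwards [h1, h2, hJ.mem_nhds ht] with s hs1 hs2 hs3
    exact ⟨hs3, hri hs1 hs2 (hp s hs3)⟩
  have h1 : J ⊆ {t | t ∈ J ∧ a t = b t} := by
    refine hJc.subset_of_closure_inter_subset hu ⟨t0, ht0, ht0, h0⟩ ?_
    rintro t ⟨ht1, ht2⟩
    refine ⟨ht2, ?_⟩
    have h3 : ∃ᶠ s in 𝓝 t, a s = b s := by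
      rw [mem_closure_iff_frequently] at ht1
      exact ht1.mono fun s hs => hs.2
    exact tendsto_nhds_unique_of_frequently_eq (hca t ht2) (hcb t ht2) h3
  exact fun t ht => (h1 ht).2

/-- an orbit over the collar is lifted to the strip -/
lemma lift_path {Ω : Set ℂ} {pr : ℂ → M} {Γ : ℂ → ℂ} {L δ δ' : ℝ} (hδ : δ < δ') (hO : IsOpen Ω)
    (hpc : ContinuousOn pr Ω) (hop : ∀ O : Set ℂ, IsOpen O → O ⊆ Ω → IsOpen (pr '' O))
    (hinj : ∀ z ∈ Ω, ∃ r : ℝ, 0 < r ∧ Metric.ball z r ⊆ Ω ∧ InjOn pr (Metric.ball z r))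
    (hΓ : DifferentiableOn ℂ Γ (Stp L δ')) (hm : ∀ z ∈ Stp L δ', Γ z ∈ Ω)
    (hd : ∀ z ∈ Stp L δ', deriv Γ z ≠ 0)
    (per : ∀ z ∈ Stp L δ', pr (Γ (z + 2 * Real.pi * Complex.I)) = pr (Γ z))
    (inj : ∀ z ∈ Stp L δ', ∀ w ∈ Stp L δ', pr (Γ z) = pr (Γ w) →
      ∃ n : ℤ, w = z + n * (2 * Real.pi * Complex.I))
    {A : ℝ → ℂ} (hA : Continuous A) (hAΩ : ∀ t, A t ∈ Ω) {l : ℝ} (hl : 0 ≤ l) {w0 : ℂ}
    (hw0 : w0 ∈ Stp L δ) (hA0 : A 0 = Γ w0)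
    (h : ∀ t ∈ Icc 0 l, ∃ w ∈ Stp L δ, pr (Γ w) = pr (A t)) :
    ∃ (b : ℝ → ℂ) (J : Set ℝ), IsOpen J ∧ Icc 0 l ⊆ J ∧ ContinuousOn b J ∧
      (∀ t ∈ J, b t ∈ Stp L δ' ∧ Γ (b t) = A t) ∧ b 0 = w0 ∧ ∀ t ∈ Icc 0 l, b t ∈ Stp L δ := by
  classical
  have hS := stp_open L δ'
  have hw0' := stp_mono hδ hw0
  obtain ⟨F, hF⟩ : ∃ F : ℂ → M, F = fun z => pr (Γ z) := ⟨_, rfl⟩
  have hFz : ∀ z, F z = pr (Γ z) := fun z => by rw [hF]
  have hFper : ∀ z ∈ Stp L δ', ∀ n : ℤ, F (z + n * (2 * Real.pi * Complex.I)) = F z := by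
    intro z hz n
    refine pr_int (pr := F) (L := L) (δ := δ') (fun z hz => ?_) hz n
    rw [hFz, hFz]
    exact per z hz
  have hFn : ∀ z ∈ Stp L δ', 𝓝 (F z) ≤ map F (𝓝 z) := by
    intro z hz
    rw [hF]
    exact F_nhds hO hop hS hΓ hm hd hz
  -- the coordinate on the collar
  obtain ⟨κ, hκ⟩ : ∃ κ : M → ℂ, κ = fun m => if h : ∃ z, z ∈ Stp L δ' ∧ F z = m then
      Complex.exp h.choose else 1 := ⟨_, rfl⟩
  have hκ1 : ∀ z ∈ Stp L δ', κ (F z) = Complex.exp z := by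
    intro z hz
    have h1 : ∃ z', z' ∈ Stp L δ' ∧ F z' = F z := ⟨z, hz, rfl⟩
    have h2 : κ (F z) = Complex.exp h1.choose := by
      rw [hκ]
      exact dif_pos h1
    rw [h2]
    have h5 : ∀ y ∈ Stp L δ', F y = F z → Complex.exp y = Complex.exp z := by
      intro y hy hyz
      rw [hFz, hFz] at hyz
      obtain ⟨n, hn⟩ := inj _ hy z hz hyz
      rw [hn, Complex.exp_add, Complex.exp_int_mul_two_pi_mul_I, mul_one]
    exact h5 _ h1.choose_spec.1 h1.choose_spec.2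
  have hκ0 : ∀ m, κ m ≠ 0 := by
    intro m
    rw [hκ]
    by_cases h1 : ∃ z, z ∈ Stp L δ' ∧ F z = m
    · simp only [h1, dite_true]
      exact Complex.exp_ne_zero _
    · simp only [h1, dite_false]
      exact one_ne_zero
  have hκc : ∀ z ∈ Stp L δ', ContinuousAt κ (F z) := by
    intro z hz
    show Tendsto κ (𝓝 (F z)) (𝓝 (κ (F z)))
    refine Tendsto.mono_left ?_ (hFn z hz)
    rw [tendsto_map'_iff, hκ1 z hz]
    refine Tendsto.congr' ?_ Complex.continuous_exp.continuousAt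
    filter_upwards [hS.mem_nhds hz] with y hy
    exact (hκ1 y hy).symm
  -- the interval
  have hprA : ∀ t, ContinuousAt (fun t => pr (A t)) t := fun t =>
    ContinuousAt.comp (f := A) (g := pr) (hpc.continuousAt (hO.mem_nhds (hAΩ t))) hA.continuousAt
  have hJ0 : ∀ t, (∃ z ∈ Stp L δ', F z = pr (A t)) →
      ∀ᶠ s in 𝓝 t, ∃ z ∈ Stp L δ', F z = pr (A s) := by
    rintro t ⟨z, hz, hzt⟩
    have h1 : F '' Stp L δ' ∈ 𝓝 (pr (A t)) := by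
      rw [← hzt]
      exact hFn z hz (image_mem_map (hS.mem_nhds hz))
    have h2 := (hprA t).eventually h1
    filter_upwards [h2] with s hs
    obtain ⟨y, hy, hys⟩ := hs
    exact ⟨y, hy, hys⟩
  have hin : ∀ t ∈ Icc 0 l, ∃ z ∈ Stp L δ', F z = pr (A t) := by
    intro t ht
    obtain ⟨w, hw, hwt⟩ := h t ht
    exact ⟨w, stp_mono hδ hw, by rw [hFz]; exact hwt⟩
  obtain ⟨ε, hε, hJ⟩ : ∃ ε : ℝ, 0 < ε ∧ ∀ t ∈ Ioo (-ε) (l + ε), ∃ z ∈ Stp L δ', F z = pr (A t) := by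
    obtain ⟨e1, he1, h1⟩ := Metric.eventually_nhds_iff_ball.1 (hJ0 0 (hin 0 ⟨le_refl _, hl⟩))
    obtain ⟨e2, he2, h2⟩ := Metric.eventually_nhds_iff_ball.1 (hJ0 l (hin l ⟨hl, le_refl _⟩))
    refine ⟨min e1 e2, lt_min he1 he2, fun t ht => ?_⟩
    by_cases c1 : t < 0
    · refine h1 t ?_
      rw [Metric.mem_ball, Real.dist_eq, sub_zero, abs_of_neg c1]
      have := min_le_left e1 e2
      linarith [ht.1]
    · by_cases c2 : l < t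
      · refine h2 t ?_
        rw [Metric.mem_ball, Real.dist_eq, abs_of_pos (by linarith)]
        have := min_le_right e1 e2
        linarith [ht.2]
      · exact hin t ⟨by linarith, by linarith⟩
  have hJo : IsOpen (Ioo (-ε) (l + ε)) := isOpen_Ioo
  have hJs : Icc 0 l ⊆ Ioo (-ε) (l + ε) := fun t ht => ⟨by linarith [ht.1], by linarith [ht.2]⟩
  have h0J : (0 : ℝ) ∈ Ioo (-ε) (l + ε) := hJs ⟨le_refl _, hl⟩
  have hsc : IsSimplyConnected (Ioo (-ε) (l + ε)) := by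
    have : ContractibleSpace (Ioo (-ε) (l + ε)) :=
      (convex_Ioo (-ε) (l + ε)).contractibleSpace ⟨0, h0J⟩
    show SimplyConnectedSpace (Ioo (-ε) (l + ε))
    infer_instance
  have hgc : ContinuousOn (fun t => κ (pr (A t))) (Ioo (-ε) (l + ε)) := by
    intro t ht
    refine ContinuousAt.continuousWithinAt ?_
    obtain ⟨z, hz, hzt⟩ := hJ t ht
    refine ContinuousAt.comp (f := fun t => pr (A t)) (g := κ) ?_ (hprA t)
    show ContinuousAt κ (pr (A t))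
    rw [← hzt]
    exact hκc z hz
  have hg0 : (0 : ℂ) ∉ (fun t => κ (pr (A t))) '' Ioo (-ε) (l + ε) := by
    rintro ⟨t, -, ht⟩
    exact hκ0 _ ht
  obtain ⟨f, hfc, hfe⟩ := Complex.exists_continuousOn_eqOn_exp_comp hsc hJo hgc hg0
  have hf1 : ∀ t ∈ Ioo (-ε) (l + ε), f t ∈ Stp L δ' ∧ F (f t) = pr (A t) := by
    intro t ht
    obtain ⟨z, hz, hzt⟩ := hJ t ht
    have h1 : Complex.exp (f t) = Complex.exp z := by
      have h2 : Complex.exp (f t) = κ (pr (A t)) := hfe ht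
      rw [h2, ← hzt, hκ1 z hz]
    obtain ⟨n, hn⟩ := Complex.exp_eq_exp_iff_exists_int.1 h1
    rw [hn]
    exact ⟨tr_stp n hz, by rw [hFper z hz n, hzt]⟩
  obtain ⟨n, hn⟩ : ∃ n : ℤ, w0 = f 0 + n * (2 * Real.pi * Complex.I) := by
    refine inj (f 0) (hf1 0 h0J).1 w0 hw0' ?_
    rw [← hFz, (hf1 0 h0J).2, hA0]
  obtain ⟨b, hb⟩ : ∃ b : ℝ → ℂ, b = fun t => f t + n * (2 * Real.pi * Complex.I) := ⟨_, rfl⟩
  have hbt : ∀ t, b t = f t + n * (2 * Real.pi * Complex.I) := fun t => by rw [hb]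
  have hbS : ∀ t ∈ Ioo (-ε) (l + ε), b t ∈ Stp L δ' := by
    intro t ht
    rw [hbt]
    exact tr_stp n (hf1 t ht).1
  have hbF : ∀ t ∈ Ioo (-ε) (l + ε), F (b t) = pr (A t) := by
    intro t ht
    rw [hbt, hFper _ (hf1 t ht).1 n, (hf1 t ht).2]
  have hbc : ContinuousOn b (Ioo (-ε) (l + ε)) := by
    rw [hb]
    exact hfc.add continuousOn_const
  have hΓb : ContinuousOn (fun t => Γ (b t)) (Ioo (-ε) (l + ε)) :=
    hΓ.continuousOn.comp hbc hbS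
  have hb0 : b 0 = w0 := by rw [hbt, ← hn]
  have hu := lift_unique hinj hJo isPreconnected_Ioo hΓb hA.continuousOn
    (fun t ht => hm _ (hbS t ht)) (fun t ht => by rw [← hFz]; exact hbF t ht) h0J
    (by rw [hb0, hA0])
  refine ⟨b, Ioo (-ε) (l + ε), hJo, hJs, hbc, fun t ht => ⟨hbS t ht, hu t ht⟩, hb0, ?_⟩
  intro t ht
  obtain ⟨w, hw, hwt⟩ := h t ht
  obtain ⟨k, hk⟩ := inj (b t) (hbS t (hJs ht)) w (stp_mono hδ hw) (by
    rw [hu t (hJs ht)]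
    exact hwt.symm)
  have h4 : w.re = (b t).re := by rw [hk, tr_re]
  show -δ < (b t).re ∧ (b t).re < L + δ
  rw [← h4]
  exact hw

end lift

end Pool.Agent.H400.EV.ClPA
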