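import Pool.Agent.H240.GU.Def6
import Pool.Agent.H400.EV.ClPA

/-!
# Few vectors stay long in the region of small curvature (`EV-4`)
-/

set_option autoImplicit false
set_option linter.unusedSectionVars false

open Set Filter Topology MeasureTheory
open scoped ContDiff Real

noncomputable section

namespace Pool.Agent.H400.EV

open Pool.Agent.Y262.EG Pool.Agent.Y262.EX Pool.Agent.H240.CG Pool.Agent.H240.EV
open Pool.Agent.H400.EV.ClPA
open Pool.Agent.Y693.EG (stp_open stp_mono closure_stp tr_re tr_im tr_stp pr_int mod_two_pi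
  germ_angle Bs bs_meas Rs rs_meas rs_fin bs_vol stay)

/-- the compact set which contains the vectors of long stay -/
def KK (L δ : ℝ) : Set Y := (Icc (-δ) (L + δ) ×ℂ Icc 0 (2 * Real.pi)) ×ˢ Icc 0 (2 * Real.pi)

lemma kk_compact (L δ : ℝ) : IsCompact (KK L δ) :=
  (isCompact_Icc.reProdIm isCompact_Icc).prod isCompact_Icc

lemma kk_sub {L δ δ' : ℝ} (h : δ < δ') : KK L δ ⊆ {p : Y | p.1 ∈ Stp L δ'} := by
  rintro p ⟨h1, -⟩
  have h2 := Complex.mem_reProdIm.1 h1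
  exact ⟨by linarith [h2.1.1], by linarith [h2.1.2]⟩

lemma tx_smooth {Γ ℓ : ℂ → ℂ} {S : Set ℂ} (hS : IsOpen S) (hΓ : DifferentiableOn ℂ Γ S)
    (hl : DifferentiableOn ℂ ℓ S) : ContDiffOn ℝ 1 (Tx Γ ℓ) {p : Y | p.1 ∈ S} := by
  have h1 : ContDiffOn ℝ 1 Γ S := (hΓ.contDiffOn hS).restrict_scalars ℝ
  have h2 : ContDiffOn ℝ 1 ℓ S := (hl.contDiffOn hS).restrict_scalars ℝ
  have h3 : ContDiffOn ℝ 1 (fun p : Y => Γ p.1) {p : Y | p.1 ∈ S} :=
    h1.comp contDiff_fst.contDiffOn fun p hp => hp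
  have h4 : ContDiffOn ℝ 1 (fun p : Y => ℓ p.1) {p : Y | p.1 ∈ S} :=
    h2.comp contDiff_fst.contDiffOn fun p hp => hp
  have h5 : ContDiffOn ℝ 1 (fun p : Y => (ℓ p.1).im) {p : Y | p.1 ∈ S} :=
    Complex.imCLM.contDiff.comp_contDiffOn h4
  exact h3.prodMk (contDiff_snd.contDiffOn.add h5)

lemma tx_bound {Ω : Set ℂ} {φ : ℂ → ℝ} (hφ : ContinuousOn φ Ω) {Γ ℓ : ℂ → ℂ} {L δ δ' : ℝ}
    (hδ : δ < δ') (hΓ : DifferentiableOn ℂ Γ (Stp L δ')) (hm : ∀ z ∈ Stp L δ', Γ z ∈ Ω)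
    (hl : DifferentiableOn ℂ ℓ (Stp L δ')) :
    ∃ K0 : ℝ, 0 ≤ K0 ∧ ∀ p ∈ KK L δ,
      |(fderiv ℝ (Tx Γ ℓ) p).det| * Real.exp (2 * φ (Γ p.1)) ≤ K0 := by
  have hS := stp_open L δ'
  have hO : IsOpen {p : Y | p.1 ∈ Stp L δ'} := hS.preimage continuous_fst
  have h1 : ContinuousOn (fderiv ℝ (Tx Γ ℓ)) {p : Y | p.1 ∈ Stp L δ'} :=
    (tx_smooth hS hΓ hl).continuousOn_fderiv_of_isOpen hO (le_refl _)
  have h2 : ContinuousOn (fun p : Y => |(fderiv ℝ (Tx Γ ℓ) p).det|) {p : Y | p.1 ∈ Stp L δ'} :=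
    (ContinuousLinearMap.continuous_det.comp_continuousOn h1).abs
  have h3 : ContinuousOn (fun p : Y => Real.exp (2 * φ (Γ p.1))) {p : Y | p.1 ∈ Stp L δ'} := by
    have h4 : ContinuousOn (fun p : Y => Γ p.1) {p : Y | p.1 ∈ Stp L δ'} :=
      hΓ.continuousOn.comp continuous_fst.continuousOn fun p hp => hp
    have h5 : ContinuousOn (fun p : Y => φ (Γ p.1)) {p : Y | p.1 ∈ Stp L δ'} :=
      hφ.comp h4 fun p hp => hm _ hp
    exact Real.continuous_exp.comp_continuousOn (continuousOn_const.mul h5)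
  obtain ⟨K0, hK0⟩ := (kk_compact L δ).bddAbove_image ((h2.mul h3).mono (kk_sub hδ))
  refine ⟨max K0 0, le_max_right _ _, fun p hp => ?_⟩
  exact (hK0 (mem_image_of_mem _ hp)).trans (le_max_left _ _)

lemma tx_inj {M : Type} {pr : ℂ → M} {Γ ℓ : ℂ → ℂ} {L δ' : ℝ}
    (inj : ∀ z ∈ Stp L δ', ∀ w ∈ Stp L δ', pr (Γ z) = pr (Γ w) →
      ∃ n : ℤ, w = z + n * (2 * Real.pi * Complex.I)) :
    InjOn (Tx Γ ℓ) {p : Y | p.1 ∈ Stp L δ' ∧ p.1.im ∈ Ico 0 (2 * Real.pi)} := by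
  rintro p ⟨hp1, hp2⟩ p' ⟨hp'1, hp'2⟩ h
  have h1 : Γ p.1 = Γ p'.1 := congrArg Prod.fst h
  have h2 : p.2 + (ℓ p.1).im = p'.2 + (ℓ p'.1).im := congrArg Prod.snd h
  obtain ⟨n, hn⟩ := inj _ hp1 _ hp'1 (by rw [h1])
  have h3 : p'.1.im = p.1.im + n * (2 * Real.pi) := by rw [hn, tr_im]
  have hpi := Real.two_pi_pos
  have h4 : n = 0 := by
    have h5 : (-1 : ℝ) < n := by
      by_contra hcon
      push Not at hcon
      nlinarith [hp2.2, hp'2.1]
    have h6 : (n : ℝ) < 1 := by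
      by_contra hcon
      push Not at hcon
      nlinarith [hp2.1, hp'2.2]
    have h7 : (-1 : ℤ) < n := by exact_mod_cast h5
    have h8 : n < 1 := by exact_mod_cast h6
    omega
  have h5 : p'.1 = p.1 := by rw [hn, h4]; simp
  have h6 : p'.2 = p.2 := by
    rw [h5] at h2
    linarith
  exact (Prod.ext h5 h6).symm

/-- the range of a real number modulo `2π` -/
lemma mod_two_pi' (x : ℝ) : ∃ n : ℤ, x + n * (2 * Real.pi) ∈ Ico 0 (2 * Real.pi) := by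
  have hp := Real.two_pi_pos
  refine ⟨-⌊x / (2 * Real.pi)⌋, ?_⟩
  have h1 := Int.floor_le (x / (2 * Real.pi))
  have h2 := Int.lt_floor_add_one (x / (2 * Real.pi))
  rw [le_div_iff₀ hp] at h1
  rw [div_lt_iff₀ hp] at h2
  push_cast
  constructor
  · linarith
  · linarith

lemma kP_q {M P : Type} [MetricSpace M] [CompactSpace M] [MetricSpace P] [CompactSpace P]
    {Ω : Set ℂ} {φ : ℂ → ℝ} {pr : ℂ → M} {q : Y → P} (hUT : IsUT Ω φ pr q) :
    ∀ p ∈ YO Ω, kP Ω φ q (q p) = -curv φ p.1 := by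
  obtain ⟨-, -, hE3⟩ := tEt M P Ω φ pr q hUT
  obtain ⟨hl, -, -⟩ := tDWP tEt M P Ω φ pr q hUT
  intro p hp
  obtain ⟨U, A, hUo, hpU, hUs, hA, hAp, hAy⟩ :=
    hE3 p hp (lft Ω q (q p)) (hl (q p)).1 (hl (q p)).2.symm
  have h1 := (hAy p hpU).2.2.1
  unfold kP
  rw [← hAp, h1]

/-- **Few vectors stay in the region of small curvature.** -/
theorem stClP3 (h1 : StTrX) (h2 : StClair3) : StClP3 := by
  intro M P _ _ _ _ _ _ Ω φ pr q m Fl Γ ℓ L δ δ' κ C x0 g hUT hL hG hCl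
  have hS := stp_open L δ'
  have hconv := conv_g hUT.opn hUT.smooth hCl.hol hCl.maps hCl.lhol hCl.rot hCl.gs hCl.neg
  obtain ⟨C1, hC1⟩ := h2 L δ δ' x0 g hCl.posL hCl.posδ hCl.ltδ hCl.x0p hCl.x0L hCl.gs hCl.g0
    hCl.g1 hconv
  obtain ⟨C2, hC2⟩ := Pool.Agent.Y447.EG.sinm
  obtain ⟨hfin, -, hB⟩ := tFinP tEt M P Ω φ pr q m hUT hL
  obtain ⟨hF1, -, -, -⟩ := tFlP tEt M P Ω φ pr q Fl hUT hG
  have hK1 := kP_q hUT
  have hd : ∀ z ∈ Stp L δ', deriv Γ z ≠ 0 := fun z hz => by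
    rw [← hCl.lexp z hz]
    exact Complex.exp_ne_zero _
  have hTr := (h1 Ω φ Γ ℓ (Stp L δ') (fun z => g z.re) hUT.opn hS hUT.smooth hCl.hol hCl.maps
    hCl.lhol hCl.lexp hCl.rot).2
  have hgc : ContinuousOn (fun z : ℂ => g z.re) (Stp L δ') :=
    hCl.gs.continuousOn.comp Complex.continuous_re.continuousOn fun z hz => hz
  have hsub0 := stp_mono (L := L) hCl.ltδ
  obtain ⟨B, hBdef⟩ : ∃ B : ℝ → Set Y, B = fun ε => Bs (fun z => g z.re) L δ ε ∩
    {p : Y | p.1.im < 2 * Real.pi} := ⟨_, rfl⟩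
  -- the vectors of long stay
  have key : ∀ l : ℝ, 1 ≤ l → {x | ∀ t ∈ Icc 0 l, kP Ω φ q (FlP Ω q Fl t x) < κ} ⊆
      q '' (Tx Γ ℓ '' B (max C1 0 / l)) := by
    intro l hl x hx
    have hl0 : (0 : ℝ) < l := by linarith
    obtain ⟨p, hp, rfl⟩ : x ∈ q '' YO Ω := by rw [hUT.surjq]; exact mem_univ x
    have h3 : -κ < curv φ p.1 := by
      have := hx 0 ⟨le_refl _, hl0.le⟩
      rw [hF1 0 p hp, hG.zero p hp, hK1 p hp] at this
      linarith
    obtain ⟨w, hw, hwp⟩ := hCl.low p.1 hp h3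
    obtain ⟨n, hn⟩ := mod_two_pi' w.im
    obtain ⟨w', hw'⟩ : ∃ w' : ℂ, w' = w + n * (2 * Real.pi * Complex.I) := ⟨_, rfl⟩
    have hw'S : w' ∈ Stp L δ := by rw [hw']; exact tr_stp n hw
    have hw'S' : w' ∈ Stp L δ' := hsub0 hw'S
    have hw'p : pr p.1 = pr (Γ w') := by
      have h4 := pr_int (pr := fun z => pr (Γ z)) hCl.per (hsub0 hw) n
      rw [hw', ← hwp]
      exact h4.symm
    obtain ⟨θ, hθ⟩ := hUT.deck p.1 hp (Γ w') (hCl.maps _ hw'S') hw'p p.2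
    obtain ⟨k, hk⟩ := mod_two_pi (θ - (ℓ w').im)
    have hge := germ_angle k hθ
    obtain ⟨θ', hθ'⟩ : ∃ θ' : ℝ, θ' = θ - (ℓ w').im + k * (2 * Real.pi) := ⟨_, rfl⟩
    obtain ⟨p0, hp0⟩ : ∃ p0 : Y, p0 = Tx Γ ℓ (w', θ') := ⟨_, rfl⟩
    have hp0' : p0 = (Γ w', θ + k * (2 * Real.pi)) := by
      rw [hp0]
      show (Γ w', θ' + (ℓ w').im) = _
      rw [hθ']
      congr 1
      ring
    rw [← hp0'] at hge
    have hp0Ω : p0 ∈ YO Ω := by rw [hp0]; exact hCl.maps _ hw'S'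
    have hq : q p = q p0 := (hUT.rel p hp p0 hp0Ω).2 hge
    have h4 : ∀ t ∈ Icc 0 l, -κ < curv φ (Fl t p0).1 := by
      intro t ht
      have := hx t ht
      rw [hq, hF1 t p0 hp0Ω, hK1 _ (hG.maps t p0 hp0Ω)] at this
      linarith
    have hcontF : Continuous fun t => Fl t p0 :=
      continuous_iff_continuousAt.2 fun t => (hG.ode t p0 hp0Ω).continuousAt
    have hcont : Continuous fun t => (Fl t p0).1 := continuous_fst.comp hcontF
    obtain ⟨b, J, hJo, hJs, hbc, hbJ, hb0, hbδ⟩ := lift_path hCl.ltδ hUT.opn hUT.contp hUT.opnp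
      hUT.injp hCl.hol hCl.maps hd hCl.per hCl.inj hcont (fun t => hG.maps t p0 hp0Ω) hl0.le hw'S
      (by
        show (Fl 0 p0).1 = Γ w'
        rw [hG.zero p0 hp0Ω, hp0]
        rfl) (fun t ht => hCl.low _ (hG.maps t p0 hp0Ω) (h4 t ht))
    obtain ⟨c, hc⟩ : ∃ c : ℝ → Y, c = fun t => (b t, (Fl t p0).2 - (ℓ (b t)).im) := ⟨_, rfl⟩
    have hc1 : ∀ t, (c t).1 = b t := fun t => by rw [hc]
    have hcT : ∀ t ∈ J, Tx Γ ℓ (c t) = Fl t p0 := by
      intro t ht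
      rw [hc]
      show (Γ (b t), (Fl t p0).2 - (ℓ (b t)).im + (ℓ (b t)).im) = Fl t p0
      rw [(hbJ t ht).2, sub_add_cancel]
    have hcc : ∀ t ∈ J, ContinuousAt c t := by
      intro t ht
      have h5 : ContinuousAt b t := hbc.continuousAt (hJo.mem_nhds ht)
      have h6 : ContinuousAt (fun t => ℓ (b t)) t :=
        ContinuousAt.comp (f := b) (g := ℓ) (hCl.lhol.continuousOn.continuousAt
          (hS.mem_nhds (hbJ t ht).1)) h5
      rw [hc]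
      exact h5.prodMk ((continuous_snd.comp hcontF).continuousAt.sub
        (Complex.continuous_im.continuousAt.comp h6))
    have hcd : ∀ t ∈ J, HasDerivAt c (XX (fun z => g z.re) (c t)) t := by
      intro t ht
      refine hTr c t (by rw [hc1]; exact (hbJ t ht).1) (hcc t ht) ?_
      rw [hcT t ht]
      refine (hG.ode t p0 hp0Ω).congr_of_eventuallyEq ?_
      filter_upwards [hJo.mem_nhds ht] with s hs
      exact hcT s hs
    have h5 := hC1 c l hl fun t ht => ⟨by rw [hc1]; exact hbδ t ht, hcd t (hJs ht)⟩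
    have h0 : c 0 = (w', θ') := by
      rw [hc]
      show (b 0, (Fl 0 p0).2 - (ℓ (b 0)).im) = (w', θ')
      rw [hb0, hG.zero p0 hp0Ω, hp0]
      show (w', θ' + (ℓ w').im - (ℓ w').im) = (w', θ')
      rw [add_sub_cancel_right]
    rw [h0] at h5
    refine ⟨p0, ⟨(w', θ'), ?_, hp0.symm⟩, hq.symm⟩
    have hn' : w'.im ∈ Ico 0 (2 * Real.pi) := by
      rw [hw', tr_im]
      exact hn
    rw [hBdef]
    refine ⟨⟨hw'S, ⟨hn'.1, hn'.2.le⟩, ?_, ?_⟩, hn'.2⟩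
    · show θ' ∈ Icc 0 (2 * Real.pi)
      rw [hθ']
      exact hk
    · refine h5.trans ?_
      exact div_le_div_of_nonneg_right (le_max_left _ _) hl0.le
  obtain ⟨D, hD⟩ : ∃ D : ℝ, D = max C1 0 := ⟨_, rfl⟩
  have hD0 : 0 ≤ D := by rw [hD]; exact le_max_right _ _
  rw [← hD] at key
  obtain ⟨E, hE⟩ : ∃ E : ℝ, E = max C2 0 := ⟨_, rfl⟩
  have hE0 : 0 ≤ E := by rw [hE]; exact le_max_right _ _
  have hC2' : ∀ a ε : ℝ, 0 < a → 0 ≤ ε → ε ≤ 1 →
      volume {θ : ℝ | θ ∈ Icc 0 (2 * Real.pi) ∧ |a * (|Real.sin θ|) - 1| ≤ ε} ≤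
        ENNReal.ofReal (E * Real.sqrt ε) := fun a ε h1 h2 h3 =>
    (hC2 a ε h1 h2 h3).trans (ENNReal.ofReal_le_ofReal
      (mul_le_mul_of_nonneg_right (by rw [hE]; exact le_max_left _ _) (Real.sqrt_nonneg _)))
  obtain ⟨V, hV⟩ : ∃ V : ℝ, V = (volume (Rs L δ)).toReal := ⟨_, rfl⟩
  have hV0 : 0 ≤ V := by rw [hV]; exact ENNReal.toReal_nonneg
  have hVe : volume (Rs L δ) = ENNReal.ofReal V := by
    rw [hV, ENNReal.ofReal_toReal (rs_fin L δ).ne]
  obtain ⟨W, hW⟩ : ∃ W : ℝ, W = (m univ).toReal := ⟨_, rfl⟩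
  have hW0 : 0 ≤ W := by rw [hW]; exact ENNReal.toReal_nonneg
  have hWe : m univ = ENNReal.ofReal W := by
    rw [hW, ENNReal.ofReal_toReal (measure_ne_top m univ)]
  obtain ⟨K0, hK00, hK0⟩ := tx_bound hUT.smooth.continuousOn hCl.ltδ hCl.hol hCl.maps hCl.lhol
  refine ⟨K0 * (E * Real.sqrt D * V) + W * Real.sqrt D, fun l hl => ?_⟩
  have hl0 : (0 : ℝ) < l := by linarith
  have hsl : 0 < Real.sqrt l := Real.sqrt_pos.2 hl0
  have hsq : Real.sqrt (D / l) = Real.sqrt D / Real.sqrt l := Real.sqrt_div hD0 l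
  by_cases hDl : D / l ≤ 1
  · refine (measure_mono (key l hl)).trans ?_
    have hBs : ∀ p ∈ B (D / l), p ∈ Bs (fun z => g z.re) L δ (D / l) ∧
        p.1.im ∈ Ico 0 (2 * Real.pi) := by
      intro p hp
      rw [hBdef] at hp
      exact ⟨hp.1, hp.1.2.1.1, hp.2⟩
    have hBm : MeasurableSet (B (D / l)) := by
      rw [hBdef]
      exact (bs_meas hgc hsub0 _).inter
        (measurableSet_lt (Complex.measurable_im.comp measurable_fst) measurable_const)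
    have hBK : ∀ p ∈ B (D / l), p ∈ KK L δ := by
      intro p hp
      obtain ⟨h3, h4⟩ := hBs p hp
      exact ⟨Complex.mem_reProdIm.2 ⟨⟨h3.1.1.le, h3.1.2.le⟩, h3.2.1⟩, h3.2.2.1⟩
    have hBS : ∀ p ∈ B (D / l), p.1 ∈ Stp L δ' := fun p hp => hsub0 (hBs p hp).1.1
    have hBI : B (D / l) ⊆ {p : Y | p.1 ∈ Stp L δ' ∧ p.1.im ∈ Ico 0 (2 * Real.pi)} :=
      fun p hp => ⟨hBS p hp, (hBs p hp).2⟩
    have hinj : InjOn (Tx Γ ℓ) (B (D / l)) := (tx_inj hCl.inj).mono hBI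
    have hder : ∀ p ∈ B (D / l), HasFDerivWithinAt (Tx Γ ℓ) (fderiv ℝ (Tx Γ ℓ) p) (B (D / l)) p := by
      intro p hp
      have hO : IsOpen {p : Y | p.1 ∈ Stp L δ'} := hS.preimage continuous_fst
      have h3 := (tx_smooth hS hCl.hol hCl.lhol).contDiffAt (hO.mem_nhds (hBS p hp))
      exact (h3.differentiableAt (by norm_num)).hasFDerivAt.hasFDerivWithinAt
    have hTm : MeasurableSet (Tx Γ ℓ '' B (D / l)) :=
      measurable_image_of_fderivWithin hBm hder hinj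
    have hsub : Tx Γ ℓ '' B (D / l) ⊆ YO Ω := by
      rintro _ ⟨p, hp, rfl⟩
      exact hCl.maps _ (hBS p hp)
    refine ((hB _ hTm hsub).2.2).trans ?_
    rw [lintegral_image_eq_lintegral_abs_det_fderiv_mul volume hBm hder hinj]
    have h1 : ∫⁻ p in B (D / l), ENNReal.ofReal |(fderiv ℝ (Tx Γ ℓ) p).det| *
        ENNReal.ofReal (Real.exp (2 * φ (Tx Γ ℓ p).1)) ≤
        ∫⁻ p in B (D / l), ENNReal.ofReal K0 := by
      refine setLIntegral_mono measurable_const fun p hp => ?_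
      rw [← ENNReal.ofReal_mul (abs_nonneg _)]
      exact ENNReal.ofReal_le_ofReal (hK0 p (hBK p hp))
    refine h1.trans ?_
    rw [setLIntegral_const]
    have h2 : volume (B (D / l)) ≤ volume (Bs (fun z => g z.re) L δ (D / l)) :=
      measure_mono fun p hp => (hBs p hp).1
    refine (mul_le_mul_right (h2.trans (bs_vol hgc hsub0 hC2' (by positivity) hDl)) _).trans ?_
    rw [hVe, ← ENNReal.ofReal_mul (by positivity), ← ENNReal.ofReal_mul hK00]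
    refine ENNReal.ofReal_le_ofReal ?_
    rw [hsq, le_div_iff₀ hsl]
    have e : K0 * (E * (Real.sqrt D / Real.sqrt l) * V) * Real.sqrt l =
        K0 * (E * Real.sqrt D * V) := by
      field_simp
    rw [e]
    have : 0 ≤ W * Real.sqrt D := by positivity
    linarith
  · refine (measure_mono (subset_univ _)).trans ?_
    rw [hWe]
    refine ENNReal.ofReal_le_ofReal ?_
    rw [le_div_iff₀ hsl]
    have h1 : Real.sqrt l ≤ Real.sqrt D := by
      refine Real.sqrt_le_sqrt ?_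
      have h2 := not_le.1 hDl
      rw [lt_div_iff₀ hl0] at h2
      linarith
    have h2 : 0 ≤ K0 * (E * Real.sqrt D * V) := by positivity
    have h3 := mul_le_mul_of_nonneg_left h1 hW0
    linarith

end Pool.Agent.H400.EV
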